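import Pool.Agent.R596.FcNmt

/-!
# Countable products of compact metrizable spaces can all be compact without being metrizable

There is a countable transitive model of ZF in which every countable product of compact metrizable
spaces is compact, but some such product is not metrizable. The definitions are in
`Pool.Agent.R596.FcDefs` and `Pool.Agent.R596.FcProd`.
-/

set_option autoImplicit false

namespace Pool.Agent.Results.MP_f0e779_lc.CompactNotMetrizable

open Pool.Agent.W868 Pool.Agent.R596Fc

theorem result : ∃ M : Set ZFSet.{0}, M.Countable ∧ IsZF M ∧ CPMCC M ∧ ¬ CPMCM M :=
  Pool.Agent.R596.FC.main3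

end Pool.Agent.Results.MP_f0e779_lc.CompactNotMetrizable
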